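import Pool.Agent.H79.VA.Ch
import Pool.Agent.H78.VA.G3a

set_option autoImplicit false

/-!
# The Chebyshev piece: the energy near the vertices from the measure of the bad set
-/

namespace H54.VA

open MeasureTheory Set Metric Filter Topology H82.Bil H87.BP H87.VA H79.VB

open scoped ENNReal

variable {T : Table}

/-- the times with a large difference -/
private def Bad (T : Table) [Fintype T.ι] (F : ℂ × Dir → ℝ) (ε c : ℝ) (a : ℂ × Dir) : Set ℝ :=
  {t | |t| < ε ∧ c < |XX T F t a - F a|}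

private lemma bad_sub [Fintype T.ι] (F : ℂ × Dir → ℝ) (ε c : ℝ) (a : ℂ × Dir) :
    Bad T F ε c a ⊆ Ioo (-ε) ε := fun _ ht => abs_lt.1 ht.1

private lemma bad_fin [Fintype T.ι] (F : ℂ × Dir → ℝ) (ε c : ℝ) (a : ℂ × Dir) :
    volume (Bad T F ε c a) < ⊤ :=
  (measure_mono (bad_sub F ε c a)).trans_lt (by rw [Real.volume_Ioo]; exact ENNReal.ofReal_lt_top)

private lemma bad_le [Fintype T.ι] (F : ℂ × Dir → ℝ) {ε : ℝ} (hε : 0 < ε) (c : ℝ) (a : ℂ × Dir) :
    volume.real (Bad T F ε c a) ≤ 2 * ε := by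
  have h1 : volume.real (Bad T F ε c a) ≤ volume.real (Ioo (-ε) ε) :=
    measureReal_mono (bad_sub F ε c a) (by rw [Real.volume_Ioo]; exact ENNReal.ofReal_ne_top)
  have h2 : volume.real (Ioo (-ε) ε) = 2 * ε := by
    rw [Measure.real, Real.volume_Ioo, ENNReal.toReal_ofReal (by linarith)]
    ring
  exact h1.trans h2.le

private lemma bad_meas2 [Fintype T.ι] {F : ℂ × Dir → ℝ} (hF : Measurable F) (ε c : ℝ) :
    MeasurableSet {p : (ℂ × Dir) × ℝ | |p.2| < ε ∧ c < |XX T F p.2 p.1 - F p.1|} := by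
  have h1 : MeasurableSet {p : (ℂ × Dir) × ℝ | |p.2| < ε} :=
    measurableSet_lt measurable_snd.abs measurable_const
  have h2 : Measurable fun p : (ℂ × Dir) × ℝ => XX T F p.2 p.1 :=
    (H78.VA.measurable_XX (T := T) hF).comp (measurable_snd.prodMk measurable_fst)
  have h3 : MeasurableSet {p : (ℂ × Dir) × ℝ | c < |XX T F p.2 p.1 - F p.1|} :=
    measurableSet_lt measurable_const (h2.sub (hF.comp measurable_fst)).abs
  exact h1.inter h3

private lemma ker_int {ε B : ℝ} {k k' : ℝ → ℝ} (hk : Ker ε B k k') : Integrable k' := by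
  refine hk.cont.integrable_of_hasCompactSupport ?_
  refine HasCompactSupport.of_support_subset_isCompact (isCompact_Icc (a := -ε) (b := ε)) ?_
  intro t ht
  by_contra h
  refine ht (hk.supp' t ?_)
  rw [mem_Icc, not_and_or, not_le, not_le] at h
  rcases h with h | h
  · rw [le_abs]
    right
    linarith
  · rw [le_abs]
    left
    exact h.le

private lemma ker_zero {ε B : ℝ} {k k' : ℝ → ℝ} (hk : Ker ε B k k') : ∫ t, k' t = 0 := by
  have h1 : ∫ t, k' (-t) = ∫ t, k' t := integral_neg_eq_self k' volume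
  have h2 : ∫ t, k' (-t) = - ∫ t, k' t := by
    rw [← integral_neg]
    exact integral_congr_ae (ae_of_all _ fun t => hk.odd t)
  linarith

/-- the bound at one point -/
private lemma point [Fintype T.ι] {F : ℂ × Dir → ℝ} {M ε B c : ℝ} {k k' : ℝ → ℝ}
    (hF : Measurable F) (hM : ∀ a, |F a| ≤ M) (hk : Ker ε B k k')
    (hb : ∀ t, |k' t| ≤ B / ε ^ 2) (hc : 0 ≤ c) (a : ℂ × Dir) :
    |KK T (fun t => - k' t) F a| ≤
      c * (B / ε) + 2 * M * (B / ε ^ 2) * volume.real (Bad T F ε c a) := by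
  have hM0 : 0 ≤ M := (abs_nonneg _).trans (hM a)
  have hε := hk.pos
  have hki := ker_int hk
  have hB : 0 ≤ B / ε ^ 2 := (abs_nonneg _).trans (hb 0)
  have hbm : MeasurableSet (Bad T F ε c a) := (bad_meas2 (T := T) hF ε c).preimage
    (measurable_prodMk_left (x := a))
  have h1 : KK T (fun t => - k' t) F a = ∫ t, - k' t * (XX T F t a - F a) := by
    have h2 : Integrable fun t : ℝ => - k' t * XX T F t a :=
      H78.VA.integrable_XX hF hM0 hM hki.neg a
    have h3 : Integrable fun t : ℝ => - k' t * F a := hki.neg.mul_const _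
    have h4 : ∫ t, - k' t * F a = 0 := by
      rw [integral_mul_const, integral_neg, ker_zero hk]
      ring
    have h5 : ∫ t, - k' t * (XX T F t a - F a) =
        (∫ t, - k' t * XX T F t a) - ∫ t, - k' t * F a := by
      rw [← integral_sub h2 h3]
      exact integral_congr_ae (ae_of_all _ fun t => by simp only; ring)
    rw [h5, h4, sub_zero]
    rfl
  have h6 : Integrable fun t : ℝ => c * |k' t| +
      (Bad T F ε c a).indicator (fun _ => 2 * M * (B / ε ^ 2)) t := by
    refine (hki.abs.const_mul c).add ?_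
    exact (integrable_indicator_iff hbm).2 (integrableOn_const (bad_fin F ε c a).ne)
  have h7 : ∀ t, ‖- k' t * (XX T F t a - F a)‖ ≤ c * |k' t| +
      (Bad T F ε c a).indicator (fun _ => 2 * M * (B / ε ^ 2)) t := by
    intro t
    rw [norm_mul, norm_neg, Real.norm_eq_abs, Real.norm_eq_abs]
    by_cases ht : t ∈ Bad T F ε c a
    · rw [indicator_of_mem ht]
      have h8 : |XX T F t a - F a| ≤ 2 * M := by
        refine (abs_sub _ _).trans ?_
        have := H78.VA.XX_le (T := T) hM0 hM t a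
        have := hM a
        linarith
      have h9 : |k' t| * |XX T F t a - F a| ≤ (B / ε ^ 2) * (2 * M) := by
        gcongr
        exact hb t
      have h10 : 0 ≤ c * |k' t| := by positivity
      nlinarith
    · rw [indicator_of_notMem ht, add_zero]
      by_cases h8 : |t| < ε
      · have h9 : |XX T F t a - F a| ≤ c := by
          by_contra h10
          exact ht ⟨h8, not_le.1 h10⟩
        rw [mul_comm]
        gcongr
      · rw [hk.supp' t (not_lt.1 h8)]
        simp
  have h8 := norm_integral_le_of_norm_le h6 (ae_of_all _ h7)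
  rw [← h1, Real.norm_eq_abs, integral_add (hki.abs.const_mul c)
    ((integrable_indicator_iff hbm).2 (integrableOn_const (bad_fin F ε c a).ne)),
    integral_const_mul, integral_indicator hbm, setIntegral_const, smul_eq_mul] at h8
  have h9 := mul_le_mul_of_nonneg_left hk.int' hc
  linarith

theorem pieceCh : PieceCh := by
  intro T _ F M ε B ρ c δ k k' hF hM hk hb hρ hc hδ hnear hbad
  have hM0 : 0 ≤ M := (abs_nonneg _).trans (hM (0, 0))
  have hε := hk.pos
  have hki := ker_int hk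
  have hB2 : 0 ≤ B / ε ^ 2 := (abs_nonneg _).trans (hb 0)
  have hB : 0 ≤ B := by
    by_contra h
    exact absurd hB2 (not_le.2 (div_neg_of_neg_of_pos (not_le.1 h) (by positivity)))
  have hrm := measurableSet_ring (T := T) ρ
  have hrn : ring T ρ ⊆ near T ρ := fun x hx => hx.2.2
  have hrfin : volume (ring T ρ) ≠ ⊤ := ne_top_of_le_ne_top hnear (measure_mono hrn)
  have hfin : IsFiniteMeasure (volume.restrict (ring T ρ)) := ⟨by
    rw [Measure.restrict_apply_univ]
    exact hrfin.lt_top⟩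
  set v : ℂ × Dir → ℝ := KK T (fun t => - k' t) F with hv
  have hvm : Measurable v := H78.VA.measurable_KK hF hk.cont.measurable.neg
  set m : ℂ × Dir → ℝ := fun a => volume.real (Bad T F ε c a) with hm
  have hm0 : ∀ a, 0 ≤ m a := fun a => measureReal_nonneg
  have hm2 : ∀ a, m a ≤ 2 * ε := fun a => bad_le F hε c a
  set S : Set ((ℂ × Dir) × ℝ) := {p | |p.2| < ε ∧ c < |XX T F p.2 p.1 - F p.1|} with hS
  have hSm : MeasurableSet S := bad_meas2 hF ε c
  have hmm0 : Measurable fun a : ℂ × Dir => volume (Bad T F ε c a) :=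
    measurable_measure_prodMk_left hSm
  have hmm : Measurable m := hmm0.ennreal_toReal
  -- the pointwise bound for the square
  have hsq : ∀ a, v a ^ 2 ≤ 2 * c ^ 2 * (B / ε) ^ 2 + 16 * M ^ 2 * B ^ 2 / ε ^ 3 * m a := by
    intro a
    have h1 : |v a| ≤ c * (B / ε) + 2 * M * (B / ε ^ 2) * m a := point hF hM hk hb hc a
    have h2 : v a ^ 2 ≤ (c * (B / ε) + 2 * M * (B / ε ^ 2) * m a) ^ 2 := by
      rw [← sq_abs]
      gcongr
    have h3 : (c * (B / ε) + 2 * M * (B / ε ^ 2) * m a) ^ 2 ≤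
        2 * (c * (B / ε)) ^ 2 + 2 * (2 * M * (B / ε ^ 2) * m a) ^ 2 := by
      nlinarith [sq_nonneg (c * (B / ε) - 2 * M * (B / ε ^ 2) * m a)]
    have h4 : m a ^ 2 ≤ 2 * ε * m a := by
      rw [sq]
      exact mul_le_mul_of_nonneg_right (hm2 a) (hm0 a)
    have h5 : 2 * (2 * M * (B / ε ^ 2) * m a) ^ 2 = 8 * M ^ 2 * (B / ε ^ 2) ^ 2 * m a ^ 2 := by
      ring
    have h6 : 8 * M ^ 2 * (B / ε ^ 2) ^ 2 * m a ^ 2 ≤
        8 * M ^ 2 * (B / ε ^ 2) ^ 2 * (2 * ε * m a) := by
      gcongr
    have h7 : 8 * M ^ 2 * (B / ε ^ 2) ^ 2 * (2 * ε * m a) = 16 * M ^ 2 * B ^ 2 / ε ^ 3 * m a := by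
      field_simp
      ring
    have h8 : 2 * (c * (B / ε)) ^ 2 = 2 * c ^ 2 * (B / ε) ^ 2 := by ring
    linarith
  -- the product measure
  set μ : Measure (ℂ × Dir) := (volume.restrict (ring T ρ)).prod (volume : Measure Dir) with hμ
  have hvb : ∀ a, |v a| ≤ M * ∫ t, |-k' t| := fun a => H78.VA.KK_le hM0 hM hki.neg a
  have hvi : Integrable (fun a => v a ^ 2) μ := by
    have h1 : MemLp v 2 μ := MemLp.of_bound hvm.aestronglyMeasurable (M * ∫ t, |-k' t|)
      (ae_of_all _ fun a => by rw [Real.norm_eq_abs]; exact hvb a)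
    exact h1.integrable_sq
  have hmi : Integrable m μ := by
    refine Integrable.of_bound hmm.aestronglyMeasurable (2 * ε) (ae_of_all _ fun a => ?_)
    rw [Real.norm_eq_abs, abs_of_nonneg (hm0 a)]
    exact hm2 a
  have hEn : En T ρ v = ∫ a, v a ^ 2 ∂μ := by
    rw [hμ, integral_prod _ hvi]
    rfl
  have h1 : ∫ a, v a ^ 2 ∂μ ≤
      ∫ a, (2 * c ^ 2 * (B / ε) ^ 2 + 16 * M ^ 2 * B ^ 2 / ε ^ 3 * m a) ∂μ :=
    integral_mono hvi ((integrable_const _).add (hmi.const_mul _)) hsq
  rw [integral_add (integrable_const _) (hmi.const_mul _), integral_const, integral_const_mul,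
    smul_eq_mul] at h1
  have hμu : μ.real univ = volume.real (ring T ρ) * (2 * Real.pi) := by
    rw [hμ, ← univ_prod_univ, Measure.real, Measure.prod_prod, Measure.restrict_apply_univ,
      AddCircle.measure_univ, ENNReal.toReal_mul, ENNReal.toReal_ofReal (by positivity)]
    rfl
  have hrr : volume.real (ring T ρ) ≤ (volume (near T ρ)).toReal :=
    ENNReal.toReal_mono hnear (measure_mono hrn)
  have hmδ : ∫ a, m a ∂μ ≤ δ := by
    have h2 : ∫ a, m a ∂μ = (∫⁻ a, volume (Bad T F ε c a) ∂μ).toReal :=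
      integral_toReal hmm0.aemeasurable (ae_of_all _ fun a => bad_fin F ε c a)
    have h3 : ∫⁻ a, volume (Bad T F ε c a) ∂μ = (μ.prod volume) S :=
      (Measure.prod_apply hSm).symm
    have h4 : μ = (volume : Measure (ℂ × Dir)).restrict (ring T ρ ×ˢ univ) := by
      rw [hμ, ← Measure.restrict_univ (μ := (volume : Measure Dir)), Measure.prod_restrict]
      rfl
    have h5 : μ.prod (volume : Measure ℝ) = (volume : Measure ((ℂ × Dir) × ℝ)).restrict
        ((ring T ρ ×ˢ univ) ×ˢ univ) := by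
      rw [h4, ← Measure.restrict_univ (μ := (volume : Measure ℝ)), Measure.prod_restrict]
      rfl
    rw [h2, h3, h5, Measure.restrict_apply hSm]
    have h6 : S ∩ (ring T ρ ×ˢ univ) ×ˢ univ ⊆ {p : (ℂ × Dir) × ℝ | p.1.1 ∈ ring T ρ ∧
        |p.2| < ε ∧ c < |XX T F p.2 p.1 - F p.1|} := fun p hp => ⟨hp.2.1.1, hp.1.1, hp.1.2⟩
    refine (ENNReal.toReal_mono ENNReal.ofReal_ne_top ((measure_mono h6).trans hbad)).trans ?_
    rw [ENNReal.toReal_ofReal hδ]
  rw [hEn]
  have h9 : 0 ≤ 16 * M ^ 2 * B ^ 2 / ε ^ 3 := by positivity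
  have h10 := mul_le_mul_of_nonneg_left hmδ h9
  have h11 : μ.real univ * (2 * c ^ 2 * (B / ε) ^ 2) ≤
      4 * Real.pi * (B / ε) ^ 2 * c ^ 2 * (volume (near T ρ)).toReal := by
    rw [hμu]
    have h12 : volume.real (ring T ρ) * (4 * Real.pi * (B / ε) ^ 2 * c ^ 2) ≤
        (volume (near T ρ)).toReal * (4 * Real.pi * (B / ε) ^ 2 * c ^ 2) :=
      mul_le_mul_of_nonneg_right hrr (by positivity)
    linarith
  linarith

end H54.VA
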