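import Pool.Agent.H54.VA.Ch
import Pool.Agent.H79.VA.Mv
import Pool.Agent.H79.VA.Mvs
import Pool.Agent.H87.BP.Fin

set_option autoImplicit false

/-!
# The energy near the vertices is bounded by the jumps
-/

namespace H54.VA

open MeasureTheory Set Metric Filter Topology H82.Bil H87.BP H87.VA H79.VB

open scoped ENNReal

variable {T : Table}

/-- up to a null set the bad set of `XX` is contained in the set of jumps -/
lemma bad_jump [Fintype T.ι] {κ : ℝ} (hκ : Scale T κ) (f : ℂ × Dir → ℝ) {κ' ρ ε c : ℝ}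
    (hρ : 0 < ρ) (h1 : 2 * ε ≤ κ * ρ) (h2 : ε ≤ κ' * ρ) :
    volume {p : (ℂ × Dir) × ℝ | p.1.1 ∈ ring T ρ ∧ |p.2| < ε ∧
      c < |XX T (fun a => Real.arctan (f a)) p.2 p.1 - Real.arctan (f p.1)|} ≤
      volume (Jump T f κ' c ρ) := by
  refine measure_mono_ae ?_
  have h3 : ∀ᵐ p : (ℂ × Dir) × ℝ, p.2 ≠ 0 := by
    have h4 : ∀ᵐ t : ℝ, t ≠ 0 := by
      have := ae_affine (a := 0) (b := 1) (Or.inr one_ne_zero)
      filter_upwards [this] with t ht h0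
      apply ht; rw [h0]; ring
    exact (Measure.quasiMeasurePreserving_snd (μ := (volume : Measure (ℂ × Dir)))
      (ν := (volume : Measure ℝ))).ae h4
  filter_upwards [H79.VB.ae_off T, h3] with p hp hp0
  rintro ⟨⟨hU, hr1, hr2⟩, ht, hc⟩
  obtain ⟨⟨x, θ⟩, t⟩ := p
  simp only at hU hr1 hr2 ht hc hp hp0
  have hκ0 := hκ.1
  have hR : κ * (ρ / 2) ≤ κ * infDist x T.V := by gcongr
  have hpos : 0 < |t| := abs_pos.2 hp0
  obtain ⟨o, ho⟩ := exists_short (T := T) (x := x) (h0 := κ * infDist x T.V) (h := |t|) hU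
    (by nlinarith) hpos (by linarith) (hκ.2.2 x hU) θ (θ + pp t) (by
      intro i
      rw [e_pp hp0]
      exact hp i)
  refine ⟨⟨hU, hr1, hr2⟩, by simp only; linarith, _, moved_of_SS ho, ?_⟩
  rw [XX_eq (f := fun a => Real.arctan (f a)) ho] at hc
  exact hc.trans_le (arctan_lip _ _)

theorem pieceNear : PieceNear := by
  intro T _ hV
  obtain ⟨K0, hK0, hnear⟩ := exists_near T hV
  refine ⟨4 * Real.pi * K0 + 64, by positivity, ?_⟩
  intro κ hκ f hf ε B k k' hk hb ρ κ' c hρ h1 h2 hc hJ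
  obtain ⟨hn1, hn2⟩ := hnear ρ hρ
  have hε := hk.pos
  have hF : Measurable fun a => Real.arctan (f a) := Real.continuous_arctan.measurable.comp hf
  have hM : ∀ a, |Real.arctan (f a)| ≤ 2 := by
    intro a
    have h3 := Real.arctan_lt_pi_div_two (f a)
    have h4 := Real.neg_pi_div_two_lt_arctan (f a)
    have h5 := Real.pi_le_four
    rw [abs_le]
    constructor <;> linarith
  have h3 := pieceCh T (fun a => Real.arctan (f a)) 2 ε B ρ c (c * ρ ^ 3) k k' hF hM hk hb hρ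
    hc.le (by positivity) hn1 ((bad_jump hκ f hρ h1 h2).trans hJ)
  have h4 : nearE T (KK T (fun t => - k' t) (fun a => Real.arctan (f a))) ρ =
      En T ρ (KK T (fun t => - k' t) (fun a => Real.arctan (f a))) := rfl
  rw [h4]
  refine h3.trans ?_
  have h5 : 4 * Real.pi * (B / ε) ^ 2 * c ^ 2 * (volume (near T ρ)).toReal ≤
      4 * Real.pi * (B / ε) ^ 2 * c ^ 2 * (K0 * ρ ^ 2) := by
    gcongr
  have h6 : 4 * Real.pi * (B / ε) ^ 2 * c ^ 2 * (K0 * ρ ^ 2) =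
      (4 * Real.pi * K0) * (B ^ 2 / ε ^ 3) * (c ^ 2 * (ρ ^ 2 * ε)) := by
    field_simp
  have h7 : 16 * (2 : ℝ) ^ 2 * B ^ 2 / ε ^ 3 * (c * ρ ^ 3) =
      64 * (B ^ 2 / ε ^ 3) * (c * ρ ^ 3) := by ring
  have h8 : 0 ≤ 64 * (B ^ 2 / ε ^ 3) * (c ^ 2 * (ρ ^ 2 * ε)) := by positivity
  have h9 : 0 ≤ (4 * Real.pi * K0) * (B ^ 2 / ε ^ 3) * (c * ρ ^ 3) := by positivity
  have h10 : (4 * Real.pi * K0 + 64) * (B ^ 2 / ε ^ 3) * (c ^ 2 * (ρ ^ 2 * ε) + c * ρ ^ 3) =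
      (4 * Real.pi * K0) * (B ^ 2 / ε ^ 3) * (c ^ 2 * (ρ ^ 2 * ε)) +
      (4 * Real.pi * K0) * (B ^ 2 / ε ^ 3) * (c * ρ ^ 3) +
      64 * (B ^ 2 / ε ^ 3) * (c ^ 2 * (ρ ^ 2 * ε)) + 64 * (B ^ 2 / ε ^ 3) * (c * ρ ^ 3) := by ring
  rw [h10]
  linarith

end H54.VA
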